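import Mathlib
import Pool.Agent.Helper42.EA.GraphAut

set_option autoImplicit false
open MeasureTheory Set

namespace Pool.Agent.Helper42.Old.InfiniteBarriers

/-- The energy difference `H(ρ) - H(σ)` of two spin configurations which differ at finitely many
vertices, where `H(σ) = - ∑_{xy ∈ E(G)} J_{xy} σ_x σ_y`. -/
noncomputable def energyDiff {V : Type*} (G : SimpleGraph V) (J : G.edgeSet → ℝ)
    (σ ρ : V → ℝ) : ℝ :=
  ∑ᶠ e : G.edgeSet, J e * (((e : Sym2 V).map σ).mul - ((e : Sym2 V).map ρ).mul)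

/-- `σ` is an infinite-volume ground state of the Edwards–Anderson Hamiltonian
`H(σ) = - ∑_{xy ∈ E(G)} J_{xy} σ_x σ_y` on the graph `G`: it is a `±1` configuration and
`H(σ') - H(σ) > 0` for every `±1` configuration `σ' ≠ σ` which differs from `σ` at finitely many
vertices. -/
def IsGroundState {V : Type*} (G : SimpleGraph V) (J : G.edgeSet → ℝ) (σ : V → ℝ) : Prop :=
  (∀ x, σ x = 1 ∨ σ x = -1) ∧
    ∀ σ' : V → ℝ, (∀ x, σ' x = 1 ∨ σ' x = -1) → {x | σ' x ≠ σ x}.Finite → σ' ≠ σ →
      0 < energyDiff G J σ σ'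

/-- The set of ground states. -/
def groundStates {V : Type*} (G : SimpleGraph V) (J : G.edgeSet → ℝ) : Set (V → ℝ) :=
  {σ | IsGroundState G J σ}

/-- `τ` (or, what is the same, `-τ`) can be reached from `σ` at energy cost at most `C`: on every
finite set `B` of vertices, `τ` or `-τ` agrees with a `±1` configuration `ρ` which differs from
`σ` at finitely many vertices and has `H(ρ) - H(σ) ≤ C`. -/
def ReachableAt {V : Type*} (G : SimpleGraph V) (J : G.edgeSet → ℝ) (C : ℝ) (σ τ : V → ℝ) :
    Prop :=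
  ∀ B : Finset V, ∃ ρ : V → ℝ, (∀ x, ρ x = 1 ∨ ρ x = -1) ∧ {x | ρ x ≠ σ x}.Finite ∧
    ((∀ x ∈ B, ρ x = τ x) ∨ (∀ x ∈ B, ρ x = - τ x)) ∧ energyDiff G J σ ρ ≤ C

section aux

open Pool.Agent.Helper23.EA Pool.Agent.Helper42.EA

variable {V : Type*} {G : SimpleGraph V}
  {hlf : ∀ v, {e : G.edgeSet | ea G e = v ∨ eb G e = v}.Finite}

theorem reachable_iff {J : G.edgeSet → ℝ} {C : ℝ} {s t : V → Bool} :
    ReachableAt G J C (sp ∘ s) (sp ∘ t) ↔ Bar (ea G) (eb G) hlf J s t (C / 2) := by
  classical
  constructor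
  · intro h B
    obtain ⟨ρ, hρ, hfin, hB, hC⟩ := h B
    obtain ⟨r, rfl⟩ := exists_bool ρ hρ
    set D : Finset V := hfin.toFinset with hD
    have hr : r = Pool.Agent.Helper23.EA.flip s D := by
      funext x
      unfold Pool.Agent.Helper23.EA.flip
      by_cases hx : x ∈ D
      · have hx' : (sp ∘ r) x ≠ (sp ∘ s) x := by simpa [hD] using hx
        have : r x ≠ s x := fun h => hx' (by simp [h])
        simp only [hx, if_true]
        cases h1 : r x <;> cases h2 : s x <;> simp_all
      · have hx' : (sp ∘ r) x = (sp ∘ s) x := by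
          by_contra hc; exact hx (by simpa [hD] using hc)
        simp only [hx, if_false]
        exact sp_injective hx'
    refine ⟨D, ?_, ?_⟩
    · rw [← hr]
      rcases hB with hB | hB
      · exact Or.inl fun v hv => sp_injective (hB v hv)
      · refine Or.inr fun v hv => sp_injective ?_
        have := hB v hv
        simp only [Function.comp] at this
        rw [sp_not, ← this]
    · unfold energyDiff at hC
      rw [hr, finsum_flip hlf] at hC
      linarith
  · intro h B
    obtain ⟨D, hB, hC⟩ := h B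
    refine ⟨sp ∘ (Pool.Agent.Helper23.EA.flip s D), fun x => sp_eq_or _, flip_diff_finite s D,
      ?_, ?_⟩
    · rcases hB with hB | hB
      · exact Or.inl fun v hv => by simp only [Function.comp]; rw [hB v hv]
      · exact Or.inr fun v hv => by simp only [Function.comp]; rw [hB v hv, sp_not]
    · unfold energyDiff
      rw [finsum_flip hlf]
      linarith

theorem groundState_iff_WGS [Infinite V] (hG : G.Connected) {J : G.edgeSet → ℝ}
    (hnt : NoTie (ea G) (eb G) hlf J) {σ : V → ℝ} :
    IsGroundState G J σ ↔ ∃ s, σ = sp ∘ s ∧ WGS (ea G) (eb G) hlf J s := by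
  classical
  constructor
  · rintro ⟨h1, h2⟩
    obtain ⟨s, rfl⟩ := exists_bool σ h1
    refine ⟨s, rfl, fun A => ?_⟩
    have h3 := (groundState_iff hlf J s).1 h2
    by_cases hA : A.Nonempty
    · exact (h3 A hA).le
    · rw [Finset.not_nonempty_iff_eq_empty] at hA
      subst hA
      rw [En_empty]
  · rintro ⟨s, rfl, hs⟩
    refine ⟨fun x => sp_eq_or _, (groundState_iff hlf J s).2 fun A hA => ?_⟩
    exact lt_of_le_of_ne (hs A) (Ne.symm (hnt A s (bd_nonempty hlf hG A hA)))

theorem eq_or_neg {s t : V → Bool} (h : t = s ∨ t = fun v => !(s v)) :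
    sp ∘ t = sp ∘ s ∨ sp ∘ t = -(sp ∘ s) := by
  rcases h with rfl | rfl
  · exact Or.inl rfl
  · right
    funext v
    simp [sp_not]

theorem finite_iff [Infinite V] (hG : G.Connected) {J : G.edgeSet → ℝ}
    (hnt : NoTie (ea G) (eb G) hlf J) :
    (groundStates G J).Finite ↔ J ∈ FinWG (ea G) (eb G) hlf := by
  have h1 : groundStates G J = (fun s : V → Bool => sp ∘ s) '' (WG (ea G) (eb G) hlf J) := by
    ext σ
    constructor
    · intro h
      obtain ⟨s, h2, h3⟩ := (groundState_iff_WGS hG hnt).1 h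
      exact ⟨s, h3, h2.symm⟩
    · rintro ⟨s, h3, rfl⟩
      exact (groundState_iff_WGS hG hnt).2 ⟨s, rfl, h3⟩
  have hinj : Function.Injective (fun s : V → Bool => sp ∘ s) := by
    intro s t h
    funext v
    exact sp_injective (congrFun h v)
  rw [h1, Set.finite_image_iff hinj.injOn]
  rfl

end aux

open Pool.Agent.Helper23.EA Pool.Agent.Helper42.EA in
/-- **Infinite barriers and the canonical bijection of ground states.** Let `G` be an infinite
connected locally finite vertex-transitive graph (for example `ℤ^d`, `d ≥ 1`) with i.i.d.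
couplings whose law `μ` has no atoms, and let `Λ` be a finite set of edges. Almost surely, when the
couplings `J` on `Λ` are resampled (new couplings `J'`) and `J` has only finitely many ground
states, then so does `J'`, and:
* from every ground state `σ` of `J` one can reach, at energy cost at most `0`, a ground state `τ`
  of `J'`, and no ground state of `J'` other than `±τ` is reachable from `σ` at any finite cost;
* every ground state `τ` of `J'` arises in this way from exactly one pair `±σ` of ground states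
  of `J`. -/
theorem result {V : Type*} [Countable V] [Infinite V] (G : SimpleGraph V) (hG : G.Connected)
    (hlf : ∀ x, (G.neighborSet x).Finite) (htr : ∀ x y : V, ∃ f : G ≃g G, f x = y)
    (μ : ProbabilityMeasure ℝ) (hμ : ∀ x, (μ : Measure ℝ) {x} = 0) (Λ : Finset G.edgeSet) :
    ∀ᵐ J ∂(Measure.infinitePi fun _ : G.edgeSet => (μ : Measure ℝ)),
    ∀ᵐ K ∂(Measure.infinitePi fun _ : G.edgeSet => (μ : Measure ℝ)),
    ∀ J' : G.edgeSet → ℝ, (∀ e ∈ Λ, J' e = K e) → (∀ e ∉ Λ, J' e = J e) →
      (groundStates G J).Finite →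
        (groundStates G J').Finite ∧
        (∀ σ ∈ groundStates G J, ∃ τ ∈ groundStates G J', ReachableAt G J' 0 σ τ ∧
          ∀ τ' ∈ groundStates G J', ∀ C, ReachableAt G J' C σ τ' → τ' = τ ∨ τ' = -τ) ∧
        (∀ τ ∈ groundStates G J', ∃ σ ∈ groundStates G J, ReachableAt G J' 0 σ τ ∧
          ∀ σ' ∈ groundStates G J, ∀ C, ReachableAt G J' C σ' τ → σ' = σ ∨ σ' = -σ) := by
  classical
  have hlf' := graph_lf G hlf
  haveI : NullSingletonClass (μ : Measure ℝ) := ⟨fun x => hμ x⟩
  have hmove := exists_moving_edges hG hlf htr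
  have hconn : Conn (ea G) (eb G) := fun σ τ h => eq_or_eq_not hG σ τ h
  have hnt := ae_noTie (ea G) (eb G) hlf' (fun _ : G.edgeSet => (μ : Measure ℝ))
  have hib := ae_infinite_barrier (hlf := hlf') (μ : Measure ℝ) hmove
  have hall : ∀ᵐ J ∂(iid (μ : Measure ℝ) G.edgeSet), ∀ᵐ K ∂(iid (μ : Measure ℝ) G.edgeSet),
      (NoTie (ea G) (eb G) hlf' (fun e => if e ∈ Λ then K e else J e)) ∧
      ((fun e => if e ∈ Λ then K e else J e) ∈ FinWG (ea G) (eb G) hlf' →
        IB (ea G) (eb G) hlf' (fun e => if e ∈ Λ then K e else J e)) := by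
    refine ae_resample (μ : Measure ℝ) Λ (p := fun J => NoTie (ea G) (eb G) hlf' J ∧
      (J ∈ FinWG (ea G) (eb G) hlf' → IB (ea G) (eb G) hlf' J)) ?_
    filter_upwards [hnt, hib] with J h1 h2
    exact ⟨h1, h2⟩
  rcases ae_finWG (hlf := hlf') (μ : Measure ℝ) hmove with hfin | hfin
  · -- infinitely many ground states almost surely
    filter_upwards [hfin, hnt] with J h1 h2
    refine Filter.Eventually.of_forall fun K J' _ _ hJ => ?_
    exact absurd ((finite_iff hG h2).1 hJ) h1
  · have hfin' := ae_resample (μ : Measure ℝ) Λ hfin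
    filter_upwards [hfin, hnt, hib, hall, hfin'] with J hJfin hJnt hJib hJall hJfin'
    filter_upwards [hJall, hJfin'] with K hK hKfin J' hJ'1 hJ'2 _
    have hJ' : J' = fun e => if e ∈ Λ then K e else J e := by
      funext e
      by_cases he : e ∈ Λ
      · rw [if_pos he, hJ'1 e he]
      · rw [if_neg he, hJ'2 e he]
    rw [← hJ'] at hK hKfin
    obtain ⟨hJ'nt, hJ'ib⟩ := hK
    have h1 : IB (ea G) (eb G) hlf' J := hJib hJfin
    have h2 : IB (ea G) (eb G) hlf' J' := hJ'ib hKfin
    refine ⟨(finite_iff hG hJ'nt).2 hKfin, ?_, ?_⟩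
    · intro σ hσ
      obtain ⟨s, rfl, hs⟩ := (groundState_iff_WGS hG hJnt).1 hσ
      obtain ⟨t, ht, hst⟩ := exists_relax (a := ea G) (b := eb G) (hlf := hlf') J' s
      refine ⟨sp ∘ t, (groundState_iff_WGS hG hJ'nt).2 ⟨t, rfl, ht⟩, ?_, ?_⟩
      · rw [reachable_iff (hlf := hlf')]
        simpa using hst
      · intro τ' hτ' C hC
        obtain ⟨t', rfl, ht'⟩ := (groundState_iff_WGS hG hJ'nt).1 hτ'
        rw [reachable_iff (hlf := hlf')] at hC
        exact eq_or_neg (succ_unique hJ'2 h1 h2 hconn hs ht ht' hst hC)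
    · intro τ hτ
      obtain ⟨t, rfl, ht⟩ := (groundState_iff_WGS hG hJ'nt).1 hτ
      obtain ⟨s, hs, hst, _⟩ := pred_exists hJ'2 h2 hconn ht
      refine ⟨sp ∘ s, (groundState_iff_WGS hG hJnt).2 ⟨s, rfl, hs⟩, ?_, ?_⟩
      · rw [reachable_iff (hlf := hlf')]
        simpa using hst
      · intro σ' hσ' C hC
        obtain ⟨s', rfl, hs'⟩ := (groundState_iff_WGS hG hJnt).1 hσ'
        rw [reachable_iff (hlf := hlf')] at hC
        exact eq_or_neg (pred_unique hJ'2 h1 h2 hconn hs hs' ht hst hC)

end Pool.Agent.Helper42.Old.InfiniteBarriers
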