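import Mathlib
import Pool.Agent.Helper42.Asum.Defs
import Pool.Agent.Helper42.Asum.Final

/-!
MP_96963f_co: the order of magnitude of `M n`, the least `m` such that every `m`-asummable
switching function on `n` variables is weighted threshold.
All definitions (`IsSwitching`, `IsWeighted`, `KSummable`, `Asummable`, `Certifies`, `M`) are in
`Pool.Agent.Helper42.Asum.Defs`.
-/

namespace Pool.Agent.Results.MP_96963f_co.LogAsymptotics

open Filter Pool.Agent.Helper42.Asum

/-- Up to a factor `2^{O(n log log n)}`, `M n` equals `n^{n/2}`: for all large `n`,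
`(1/2) n log₂ n - 9 n log₂ log₂ n ≤ log₂ (M n) ≤ (1/2) n log₂ n - n + 9 log₂ n`. -/
theorem result :
    (∀ n : ℕ, Certifies n (M n)) ∧
    ∀ᶠ n : ℕ in atTop,
      (1/2 : ℝ) * n * Real.logb 2 n - 9 * n * Real.logb 2 (Real.logb 2 n) ≤ Real.logb 2 (M n) ∧
      Real.logb 2 (M n) ≤ (1/2 : ℝ) * n * Real.logb 2 n - n + 9 * Real.logb 2 n :=
  ⟨certifies_M, M_lower.and M_upper_log⟩

end Pool.Agent.Results.MP_96963f_co.LogAsymptotics
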